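import Pool.Agent.Helper77.SO.St3

/-!
# MP_7a9ddc_co, project SO, module AR
-/

set_option autoImplicit false

namespace Pool.Agent.Helper81.SO.AR

open Equiv Equiv.Perm Pool.Agent.Helper35.PM Pool.Agent.Helper77.HY Pool.Agent.Helper77.OF4
  Pool.Agent.Helper77.SO

theorem mem_per {D : Type} [Finite D] (π : Perm D) (a : D) : a ∈ Function.periodicPts π :=
  Function.mk_mem_periodicPts (orderOf_pos π) (by
    show (π^[orderOf π]) a = a
    rw [← Equiv.Perm.coe_pow, pow_orderOf_eq_one]
    rfl)

theorem per_pow {D : Type} [Finite D] (π : Perm D) (a : D) (i : ℕ) :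
    Function.minimalPeriod π ((π ^ i) a) = Function.minimalPeriod π a := by
  rw [Equiv.Perm.coe_pow]
  exact Function.minimalPeriod_apply_iterate (mem_per π a) i

theorem pow_per {D : Type} (π : Perm D) (a : D) :
    (π ^ Function.minimalPeriod π a) a = a := by
  rw [Equiv.Perm.coe_pow]
  exact Function.iterate_minimalPeriod

theorem alt_of {D : Type} [Finite D] (π : Perm D) (a : D) (p q r s : ℕ) (h1 : p < q) (h2 : q < r)
    (h3 : r < s) (h4 : s < p + Function.minimalPeriod π a) :
    Alt π ((π ^ p) a) ((π ^ q) a) ((π ^ r) a) ((π ^ s) a) := by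
  have key : ∀ m, p ≤ m → (π ^ (m - p)) ((π ^ p) a) = (π ^ m) a := by
    intro m hm
    rw [← Perm.mul_apply, ← pow_add]
    congr 2
    omega
  refine ⟨q - p, r - p, s - p, by omega, by omega, by omega, ?_, key q (by omega),
    key r (by omega), key s (by omega)⟩
  rw [per_pow]
  omega

theorem main : StAr := by
  intro V D _ M hpar
  constructor
  · rintro a b c e ⟨i, j, k, hi, hij, hjk, hk, rfl, rfl, rfl⟩
    have h := alt_of M.r a i j k (Function.minimalPeriod M.r a) hij hjk hk (by omega)
    rwa [pow_per] at h
  · rintro a a' b c e ⟨i, j, k, hi, hij, hjk, hk, rfl, rfl, rfl⟩ ht hta hb hc he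
    obtain ⟨s, hs, rfl⟩ : ∃ s < Function.minimalPeriod M.r a, (M.r ^ s) a = a' := by
      obtain ⟨m, hm⟩ := (M.trans a a' ht.symm).exists_nat_pow_eq
      refine ⟨m % Function.minimalPeriod M.r a, Nat.mod_lt _
        (Function.minimalPeriod_pos_of_mem_periodicPts (mem_per M.r a)), ?_⟩
      rw [Equiv.Perm.coe_pow] at hm ⊢
      rw [Function.iterate_mod_minimalPeriod_eq, hm]
    have a0 : (M.r ^ 0) a = a := by simp
    rcases Nat.eq_zero_or_pos s with rfl | hs0
    · rw [a0]
      exact ⟨i, j, k, hi, hij, hjk, hk, rfl, rfl, rfl⟩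
    rcases lt_trichotomy s i with h | h | h
    · exact alt_of M.r a s i j k h hij hjk (by omega)
    · subst h
      exact absurd hta hb
    rcases lt_trichotomy s j with h' | h' | h'
    · have h1 := alt_of M.r a 0 i s j hi h h' (by omega)
      rw [a0] at h1
      rcases hpar _ _ _ _ h1 hta with h2 | h2
      · exact absurd h2 hb
      · exact absurd h2 hc
    · subst h'
      exact absurd hta hc
    rcases lt_trichotomy s k with h'' | h'' | h''
    · have h1 := alt_of M.r a 0 j s k (by omega) h' h'' (by omega)
      rw [a0] at h1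
      rcases hpar _ _ _ _ h1 hta with h2 | h2
      · exact absurd h2 hc
      · exact absurd h2 he
    · subst h''
      exact absurd hta he
    · have h1 := alt_of M.r a s (i + Function.minimalPeriod M.r a)
        (j + Function.minimalPeriod M.r a) (k + Function.minimalPeriod M.r a) (by omega)
        (by omega) (by omega) (by omega)
      simp only [pow_add, Perm.mul_apply, pow_per] at h1
      exact h1

end Pool.Agent.Helper81.SO.AR
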